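import Pool.Agent.Q194.RW.Tr

/-!
# MP_432bca_pr: the root evaluation matrix is non-singular
-/

namespace Pool.Agent.Results.MP_432bca_pr.NonSingular

open Finset MeasureTheory ProbabilityTheory Filter Topology

/-- The generating function `G_X(s) = Σ_k s^k P(X = k)` of an integer valued random variable. -/
noncomputable def G {Ω : Type*} [MeasurableSpace Ω] (μ : Measure Ω) (X : Ω → ℤ) (s : ℂ) : ℂ :=
  ∑' k : ℤ, s ^ k * (μ.real {ω | X ω = k} : ℂ)

/-- The distribution function `F_X(k) = P(X ≤ k)`. -/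
noncomputable def F {Ω : Type*} [MeasurableSpace Ω] (μ : Measure Ω) (X : Ω → ℤ) (k : ℤ) : ℝ :=
  μ.real {ω | X ω ≤ k}

/-- `S_N = X_1 + ... + X_N` -/
def S {Ω : Type*} (X : ℕ → Ω → ℤ) (N : ℕ) (ω : Ω) : ℤ := ∑ j ∈ Icc 1 N, X j ω

/-- The weights: `w_N(s) = s^(m_N)` and `w_j(s) = s^(m_j) G_(X_N + X_1 + ... + X_(j-1))(s)`. -/
noncomputable def w {Ω : Type*} [MeasurableSpace Ω] (μ : Measure Ω) (X : ℕ → Ω → ℤ) (m : ℕ → ℤ)
    (N j : ℕ) (s : ℂ) : ℂ :=
  if j = N then s ^ m N else s ^ m j * G μ (fun ω => X N ω + ∑ i ∈ Icc 1 (j - 1), X i ω) s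

/-- `φ_(j,c)(s) = w_j(s) Σ_(r = 0)^(-m_j-1-c) s^(r+c) F_(X_j)(m_j + r)` -/
noncomputable def φ {Ω : Type*} [MeasurableSpace Ω] (μ : Measure Ω) (X : ℕ → Ω → ℤ) (m : ℕ → ℤ)
    (N j c : ℕ) (s : ℂ) : ℂ :=
  w μ X m N j s * ∑ r ∈ range ((-m j).toNat - c), s ^ (r + c) * (F μ (X j) (m j + r) : ℂ)

/-- `ν_(j,c) = Σ_(r = 0)^(-m_j-1-c) F_(X_j)(m_j + r)` -/
noncomputable def ν {Ω : Type*} [MeasurableSpace Ω] (μ : Measure Ω) (X : ℕ → Ω → ℤ) (m : ℕ → ℤ)
    (j c : ℕ) : ℂ :=
  ∑ r ∈ range ((-m j).toNat - c), (F μ (X j) (m j + r) : ℂ)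

/-- the closed unit disc -/
def disc : Set ℂ := Metric.closedBall 0 1

/-- The multiplicity of a zero of `f` in the closed unit disc: the order of the first non-vanishing
derivative (derivatives are taken within the closed disc). -/
noncomputable def mult (f : ℂ → ℂ) (α : ℂ) : ℕ := sInf {k | iteratedDerivWithin k f disc α ≠ 0}

/-- `G_(S_N)(s) - 1` -/
noncomputable def g {Ω : Type*} [MeasurableSpace Ω] (μ : Measure Ω) (X : ℕ → Ω → ℤ) (N : ℕ) (s : ℂ) : ℂ :=
  G μ (S X N) s - 1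

/-- the zeros of `G_(S_N) - 1` in `{|s| ≤ 1} ∖ {0, 1}` -/
def zeros {Ω : Type*} [MeasurableSpace Ω] (μ : Measure Ω) (X : ℕ → Ω → ℤ) (N : ℕ) : Set ℂ :=
  {α | ‖α‖ ≤ 1 ∧ α ≠ 0 ∧ α ≠ 1 ∧ g μ X N α = 0}

/-- the columns: pairs `(j, c)` with `1 ≤ j ≤ N`, `0 ≤ c ≤ -m_j - 1` -/
abbrev Col (m : ℕ → ℤ) (N : ℕ) : Type := Σ j : Finset.Icc 1 N, Fin (-m j).toNat

/-- the rows: pairs `(α, t)` with `α` a zero, `0 ≤ t ≤ k - 1` (`k` the multiplicity of `α`), and one last
row -/
abbrev Row {Ω : Type*} [MeasurableSpace Ω] (μ : Measure Ω) (X : ℕ → Ω → ℤ) (N : ℕ) : Type :=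
  Option (Σ α : zeros μ X N, Fin (mult (g μ X N) α))

/-- the matrix `A` -/
noncomputable def A {Ω : Type*} [MeasurableSpace Ω] (μ : Measure Ω) (X : ℕ → Ω → ℤ) (m : ℕ → ℤ)
    (N : ℕ) : Matrix (Row μ X N) (Col m N) ℂ
  | some ⟨α, t⟩, ⟨j, c⟩ => iteratedDerivWithin t (φ μ X m N j c) disc α
  | none, ⟨j, c⟩ => ν μ X m j c

section

variable {Ω : Type*} [MeasurableSpace Ω] {μ : Measure Ω}

open Q194.RW

/-- **Theorem.** -/
theorem result [IsProbabilityMeasure μ] (N : ℕ) (hN : 1 ≤ N) (X : ℕ → Ω → ℤ) (m : ℕ → ℤ)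
    (hX : ∀ j ∈ Icc 1 N, Measurable (X j))
    (hind : iIndepFun (fun j : Finset.Icc 1 N => X j) μ)
    (hmin : ∀ j ∈ Icc 1 N, 0 < μ.real {ω | X j ω = m j} ∧ μ.real {ω | X j ω < m j} = 0)
    (hm : ∀ j ∈ Icc 1 N, m j ≤ 0) (hD : ∑ j ∈ Icc 1 N, m j < 0)
    (hES : ∫ ω, (S X N ω : ℝ) ∂μ < 0) :
    (∀ α ∈ zeros μ X N, iteratedDerivWithin (mult (g μ X N) α) (g μ X N) disc α ≠ 0 ∧
      (‖α‖ < 1 → (mult (g μ X N) α : ℕ∞) = analyticOrderAt (g μ X N) α) ∧
      (‖α‖ = 1 → mult (g μ X N) α = 1)) ∧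
    (∀ x : Col m N → ℂ, (A μ X m N).mulVec x = 0 → x = 0) ∧
    Nonempty (Col m N ≃ Row μ X N) ∧
    ∀ e : Col m N ≃ Row μ X N, ((A μ X m N).submatrix e id).det ≠ 0 := by
  classical
  -- the blocks
  set z : ℕ → ℕ := zz N with hz
  have hzm : ∀ t, z t ∈ Icc 1 N := zz_mem hN
  set a : ℕ → ℕ := fun t => (-m (z t)).toNat with ha
  have hac : ∀ t, ((a t : ℕ) : ℤ) = -m (z t) := fun t => by
    have := hm _ (hzm t)
    simp only [ha]
    omega
  set p : ℕ → ℕ → ℝ := fun t n => μ.real {ω | X (z t) ω = m (z t) + n} with hp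
  set AA : ℕ := ∑ t ∈ range N, a t with hAA
  have hAAc : ((AA : ℕ) : ℤ) = -∑ j ∈ Icc 1 N, m j := by
    rw [hAA, Nat.cast_sum, sum_congr rfl fun t _ => hac t, sum_neg_distrib, zz_sum_all hN m]
  have hA0 : 0 < AA := by omega
  -- integrability
  have hge : ∀ j ∈ Icc 1 N, ∀ᵐ ω ∂μ, m j ≤ X j ω := fun j hj => ae_ge (hmin j hj).2
  have hSint : Integrable (fun ω => (S X N ω : ℝ)) μ := by
    by_contra hcon
    rw [integral_undef hcon] at hES
    exact lt_irrefl _ hES
  have hint : ∀ j ∈ Icc 1 N, Integrable (fun ω => (X j ω : ℝ)) μ := by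
    intro j hj
    have h1 : Integrable (fun ω => (S X N ω : ℝ) - ∑ i ∈ Icc 1 N, (m i : ℝ)) μ :=
      hSint.sub (integrable_const _)
    have h2 : Integrable (fun ω => (X j ω : ℝ) - m j) μ := by
      refine h1.mono ?_ ?_
      · exact (((measurable_from_top (f := fun k : ℤ => (k : ℝ))).comp (hX j hj)).sub
          measurable_const).aestronglyMeasurable
      · have h3 : ∀ᵐ ω ∂μ, ∀ i : Finset.Icc 1 N, m i ≤ X i ω := ae_all_iff.2 fun i => hge i.1 i.2
        filter_upwards [h3] with ω hω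
        have h4 : ∀ i ∈ Icc 1 N, 0 ≤ (X i ω : ℝ) - m i := fun i hi => by
          have : (m i : ℝ) ≤ X i ω := by exact_mod_cast hω ⟨i, hi⟩
          linarith
        have h5 : (S X N ω : ℝ) - ∑ i ∈ Icc 1 N, (m i : ℝ) = ∑ i ∈ Icc 1 N, ((X i ω : ℝ) - m i) := by
          rw [S, sum_sub_distrib]
          push_cast
          rfl
        rw [h5, Real.norm_eq_abs, Real.norm_eq_abs, abs_of_nonneg (h4 j hj),
          abs_of_nonneg (sum_nonneg h4)]
        exact single_le_sum (f := fun i => (X i ω : ℝ) - m i) h4 hj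
    have h3 := h2.add (integrable_const (m j : ℝ))
    refine h3.congr (ae_of_all _ fun ω => ?_)
    show (X j ω : ℝ) - m j + m j = X j ω
    ring
  -- the laws
  set M : ℕ → ℝ := fun t => ∫ ω, (X (z t) ω : ℝ) ∂μ - m (z t) with hM
  have hl : ∀ t, Law (p t) (M t) := fun t =>
    law_of (hX _ (hzm t)) (hmin _ (hzm t)).2 (hmin _ (hzm t)).1 (hint _ (hzm t))
  have hneg : ∑ t ∈ range N, M t < (AA : ℕ) := by
    have h1 : ∑ t ∈ range N, M t = ∫ ω, (S X N ω : ℝ) ∂μ - ∑ j ∈ Icc 1 N, (m j : ℝ) := by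
      simp only [hM]
      rw [zz_sum_all hN (fun j => ∫ ω, (X j ω : ℝ) ∂μ - (m j : ℝ)), sum_sub_distrib]
      congr 1
      rw [← integral_finset_sum _ hint]
      refine integral_congr_ae (ae_of_all _ fun ω => ?_)
      simp [S]
    have h2 : ((AA : ℕ) : ℝ) = -∑ j ∈ Icc 1 N, (m j : ℝ) := by
      have : (((AA : ℕ) : ℤ) : ℝ) = ((-∑ j ∈ Icc 1 N, m j : ℤ) : ℝ) := by rw [hAAc]
      push_cast at this
      exact this
    rw [h1, h2]
    linarith
  obtain ⟨q, hq, hgq⟩ := Law.prod hl N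
  set Q : PowerSeries ℂ := gf q - PowerSeries.X ^ AA with hQ
  -- generating functions on the punctured disc
  have hgen : ∀ t, ∀ s : ℂ, s ≠ 0 → ‖s‖ ≤ 1 → ∫ ω, s ^ (X (z t) ω) ∂μ = s ^ (m (z t)) * ev (gf (p t)) s :=
    fun t s hs0 hs => gen_gf (hX _ (hzm t)) (hmin _ (hzm t)).2 hs0 hs
  have hGsum : ∀ T ⊆ Icc 1 N, ∀ s : ℂ, s ≠ 0 → ‖s‖ ≤ 1 →
      G μ (fun ω => ∑ i ∈ T, X i ω) s = ∏ i ∈ T, ∫ ω, s ^ (X i ω) ∂μ := by
    intro T hT s hs0 hs
    rw [← gen_sum hX hind hT hs0]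
    have h1 : Measurable fun ω => ∑ i ∈ T, X i ω := Finset.measurable_fun_sum _ fun i hi => hX i (hT hi)
    refine gen_eq h1 (m := ∑ i ∈ T, m i) ?_ hs0 hs
    have h3 : ∀ᵐ ω ∂μ, ∀ i : Finset.Icc 1 N, m i ≤ X i ω := ae_all_iff.2 fun i => hge i.1 i.2
    filter_upwards [h3] with ω hω
    exact sum_le_sum fun i hi => hω ⟨i, hT hi⟩
  have hAt : ∀ t, ∀ s : ℂ, s ≠ 0 → ‖s‖ ≤ 1 → ∏ i ∈ range t, ∫ ω, s ^ (X (z i) ω) ∂μ =
      (s ^ (∑ i ∈ range t, a i))⁻¹ * ∏ i ∈ range t, ev (gf (p i)) s := by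
    intro t s hs0 hs
    rw [prod_congr rfl fun i _ => hgen i s hs0 hs, prod_mul_distrib]
    congr 1
    rw [← zpow_natCast, ← zpow_neg, Nat.cast_sum, ← sum_neg_distrib, zpow_sum' hs0]
    refine congrArg _ (sum_congr rfl fun i _ => ?_)
    rw [hac]
    ring
  -- the function `g`
  have hg : ∀ s : ℂ, s ≠ 0 → ‖s‖ ≤ 1 → g μ X N s = (s ^ AA)⁻¹ * ev Q s := by
    intro s hs0 hs
    have h1 : G μ (S X N) s = (s ^ AA)⁻¹ * ∏ i ∈ range N, ev (gf (p i)) s := by
      have h2 := hGsum (Icc 1 N) subset_rfl s hs0 hs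
      rw [← zz_prod_all hN (fun i => ∫ ω, s ^ (X i ω) ∂μ)] at h2
      have h3 := hAt N s hs0 hs
      rw [← hAA] at h3
      rw [← h3, ← h2]
      rfl
    rw [g, h1, hQ, ev_sub (gf_L1' hq) (ev_Xpow AA s).1 hs, (ev_Xpow AA s).2, hgq, (ev_prod hl N hs).2]
    have : s ^ AA ≠ 0 := pow_ne_zero _ hs0
    field_simp
  -- the weights
  have hw : ∀ t < N, ∀ s : ℂ, s ≠ 0 → ‖s‖ ≤ 1 → w μ X m N (z t) s =
      (s ^ (∑ i ∈ range (t + 1), a i))⁻¹ * ∏ i ∈ range t, ev (gf (p i)) s := by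
    intro t ht s hs0 hs
    have hsz : s ^ (m (z t)) = (s ^ (a t))⁻¹ := by
      rw [← zpow_natCast, ← zpow_neg, hac, neg_neg]
    rw [sum_range_succ, pow_add, mul_inv]
    rcases Nat.eq_zero_or_pos t with h0 | h0
    · subst h0
      rw [w, if_pos (zz_zero N), range_zero, prod_empty, sum_empty, pow_zero, inv_one, one_mul, mul_one,
        ← hsz]
      rw [hz, zz_zero]
    · have hzt : z t = t := zz_mid (by omega) ht
      rw [w, if_neg (by rw [hzt]; omega), hsz, hzt]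
      have h1 : G μ (fun ω => X N ω + ∑ i ∈ Icc 1 (t - 1), X i ω) s =
          ∏ i ∈ range t, ∫ ω, s ^ (X (z i) ω) ∂μ := by
        rw [zz_prod N (fun i => ∫ ω, s ^ (X i ω) ∂μ) t h0 ht.le]
        have h2 : N ∉ Icc 1 (t - 1) := by
          simp only [mem_Icc]
          omega
        have h3 := hGsum (insert N (Icc 1 (t - 1))) (by
          intro i hi
          simp only [mem_insert, mem_Icc] at hi ⊢
          omega) s hs0 hs
        rw [prod_insert h2] at h3
        rw [← h3]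
        congr 1
        funext ω
        rw [sum_insert h2]
      rw [h1, hAt t s hs0 hs]
      ring
  have hφ : ∀ t < N, ∀ n, ∀ s : ℂ, s ≠ 0 → ‖s‖ ≤ 1 → φ μ X m N (z t) n s =
      (s ^ (∑ i ∈ range (t + 1), a i))⁻¹ * (∏ i ∈ range t, ev (gf (p i)) s) *
        ∑ r ∈ range (a t - n), s ^ (r + n) * ((∑ i ∈ range (r + 1), p t i : ℝ) : ℂ) := by
    intro t ht n s hs0 hs
    rw [φ, hw t ht s hs0 hs]
    congr 1
    refine sum_congr rfl fun r _ => ?_
    rw [F, cum_of (hX _ (hzm t)) (hmin _ (hzm t)).2]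
  -- zeros inside and on the circle
  obtain ⟨L, hL0, hLdeg, hL1, hLint, hLbd⟩ := count hq hA0 hneg
  have hQ1 : L1 Q := by
    rw [hQ, sub_eq_add_neg]
    exact (gf_L1' hq).add (ev_Xpow AA 0).1.neg
  have hball : ∀ α : ℂ, α ≠ 0 → ‖α‖ < 1 → ∀ᶠ s in 𝓝 α, s ≠ 0 ∧ ‖s‖ ≤ 1 := by
    intro α h0 h1
    filter_upwards [isOpen_ne.mem_nhds h0, Metric.isOpen_ball.mem_nhds (mem_ball_zero_iff.2 h1)] with s h2 h3
    exact ⟨h2, (mem_ball_zero_iff.1 h3).le⟩
  have hinva : ∀ k : ℕ, ∀ α : ℂ, α ≠ 0 → AnalyticAt ℂ (fun s => (s ^ k)⁻¹) α ∧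
      analyticOrderAt (fun s : ℂ => (s ^ k)⁻¹) α = 0 := by
    intro k α h0
    have h1 : AnalyticAt ℂ (fun s => (s ^ k)⁻¹) α :=
      (analyticAt_id.pow k).inv (pow_ne_zero _ h0)
    exact ⟨h1, by rw [h1.analyticOrderAt_eq_zero]; exact inv_ne_zero (pow_ne_zero _ h0)⟩
  have hgan : ∀ α : ℂ, α ≠ 0 → ‖α‖ < 1 → AnalyticAt ℂ (g μ X N) α ∧
      analyticOrderAt (g μ X N) α = analyticOrderAt (ev Q) α := by
    intro α h0 h1
    have h2 : g μ X N =ᶠ[𝓝 α] (fun s => (s ^ AA)⁻¹) * ev Q := by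
      filter_upwards [hball α h0 h1] with s hs
      exact hg s hs.1 hs.2
    have h3 := ev_analytic hQ1.conv h1
    refine ⟨((hinva AA α h0).1.mul h3).congr h2.symm, ?_⟩
    rw [analyticOrderAt_congr h2, analyticOrderAt_mul (hinva AA α h0).1 h3, (hinva AA α h0).2, zero_add]
  have hint1 : ∀ α ∈ zeros μ X N, ‖α‖ < 1 → (mult (g μ X N) α : ℕ∞) = analyticOrderAt (g μ X N) α ∧
      iteratedDerivWithin (mult (g μ X N) α) (g μ X N) disc α ≠ 0 ∧
      mult (g μ X N) α ≤ L.rootMultiplicity α := by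
    intro α hα h1
    obtain ⟨h2, h3⟩ := hgan α hα.2.1 h1
    have h4 := hLint α h1
    obtain ⟨n, hn⟩ := ENat.ne_top_iff_exists.1 (ne_top_of_le_ne_top (ENat.coe_ne_top _) h4)
    rw [← hn] at h3 h4
    have h5 := mult_int h1 h2 h3
    have h6 : mult (g μ X N) α = n := h5.1
    rw [h6, h3]
    exact ⟨rfl, h5.2, by exact_mod_cast h4⟩
  have hbd1 : ∀ α ∈ zeros μ X N, ‖α‖ = 1 → mult (g μ X N) α = 1 ∧
      iteratedDerivWithin (mult (g μ X N) α) (g μ X N) disc α ≠ 0 ∧ L.eval α = 0 := by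
    intro α hα h1
    have h2 : ev Q α = 0 := by
      have h3 := hα.2.2.2
      rw [hg α hα.2.1 h1.le] at h3
      exact (mul_eq_zero.1 h3).resolve_left (inv_ne_zero (pow_ne_zero _ hα.2.1))
    obtain ⟨h3, k, hk1, hk2, hk3⟩ := hLbd α h1 h2
    have h4 : HasDerivWithinAt (ev Q) (ev k α) disc α := by
      have := ev_hasDeriv hk1 h1.le
      rw [← hk2] at this
      exact this
    have h5 : HasDerivWithinAt (fun s : ℂ => (s ^ AA)⁻¹) (deriv (fun s : ℂ => (s ^ AA)⁻¹) α) disc α :=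
      (hinva AA α hα.2.1).1.differentiableAt.hasDerivAt.hasDerivWithinAt
    have h6 := h5.mul h4
    rw [h2, mul_zero, zero_add] at h6
    have h7 : HasDerivWithinAt (g μ X N) ((α ^ AA)⁻¹ * ev k α) disc α := by
      refine h6.congr_of_eventuallyEq ?_ (hg α hα.2.1 h1.le)
      have h8 : ∀ᶠ s in 𝓝[disc] α, s ≠ 0 := (isOpen_ne.mem_nhds hα.2.1) |> mem_nhdsWithin_of_mem_nhds
      filter_upwards [h8, self_mem_nhdsWithin] with s hs1 hs2
      exact hg s hs1 (mem_closedBall_zero_iff.1 hs2)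
    have h8 := mult_bd h1.le hα.2.2.2 h7 (mul_ne_zero (inv_ne_zero (pow_ne_zero _ hα.2.1)) hk3)
    have h9 : mult (g μ X N) α = 1 := h8.1
    exact ⟨h9, by rw [h9]; exact h8.2, h3⟩
  -- the kernel
  have hker : ∀ x : Col m N → ℂ, (A μ X m N).mulVec x = 0 → x = 0 := by
    intro x hx
    set x' : ℕ → ℕ → ℂ := fun j n => if h : ∃ (h1 : j ∈ Icc 1 N), n < (-m j).toNat then
      x ⟨⟨j, h.1⟩, ⟨n, h.2⟩⟩ else 0 with hx'
    have hxe : ∀ (j : Finset.Icc 1 N) (n : Fin (-m j).toNat), x ⟨j, n⟩ = x' j n := by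
      intro j n
      simp only [hx']
      rw [dif_pos ⟨j.2, n.2⟩]
    set c : ℕ → ℕ → ℂ := fun t n => x' (z t) n with hc
    have hsum : ∀ f : ℕ → ℕ → ℂ, ∑ y : Col m N, x y * f y.1 y.2 =
        ∑ t ∈ range N, ∑ n ∈ range (a t), c t n * f (z t) n := by
      intro f
      rw [Fintype.sum_sigma]
      have h1 : ∀ j : Finset.Icc 1 N, ∑ n : Fin (-m j).toNat, x ⟨j, n⟩ * f j n =
          (fun j : ℕ => ∑ n ∈ range (-m j).toNat, x' j n * f j n) j := by
        intro j
        simp only [hxe]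
        exact (Finset.sum_range (fun n => x' j n * f j n)).symm
      rw [Finset.sum_congr rfl fun j _ => h1 j,
        Finset.sum_coe_sort (Icc 1 N) (fun j : ℕ => ∑ n ∈ range (-m j).toNat, x' j n * f j n),
        ← zz_sum_all hN]
    -- the numerator
    have hPsi : ∀ s : ℂ, s ≠ 0 → ‖s‖ ≤ 1 → ev (Psi p a c N) s =
        s ^ AA * ∑ y : Col m N, x y * φ μ X m N y.1 y.2 s := by
      intro s hs0 hs
      rw [(ev_Psi hl a c N hs).2, hsum (fun j n => φ μ X m N j n s), mul_sum]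
      refine sum_congr rfl fun t ht => ?_
      have ht' := mem_range.1 ht
      have h1 : ∀ n ∈ range (a t), c t n * φ μ X m N (z t) n s = c t n *
          ((s ^ (∑ i ∈ range (t + 1), a i))⁻¹ * (∏ i ∈ range t, ev (gf (p i)) s) *
          ∑ r ∈ range (a t - n), s ^ (r + n) * ((∑ i ∈ range (r + 1), p t i : ℝ) : ℂ)) := fun n _ => by
        rw [hφ t ht' n s hs0 hs]
      rw [sum_congr rfl h1]
      have h2 : s ^ (AA - ∑ i ∈ range (t + 1), a i) = s ^ AA * (s ^ (∑ i ∈ range (t + 1), a i))⁻¹ := by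
        have h3 : ∑ i ∈ range (t + 1), a i ≤ AA :=
          sum_le_sum_of_subset (range_mono (by omega))
        rw [pow_sub₀ _ hs0 h3]
      rw [h2, mul_sum, mul_sum]
      refine sum_congr rfl fun n _ => ?_
      ring
    have hrow : ∀ α ∈ zeros μ X N, ∀ t < mult (g μ X N) α,
        ∑ y : Col m N, x y * iteratedDerivWithin t (φ μ X m N y.1 y.2) disc α = 0 := by
      intro α hα t ht
      have h1 := congrFun hx (some ⟨⟨α, hα⟩, ⟨t, ht⟩⟩)
      rw [Matrix.mulVec, dotProduct] at h1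
      refine Eq.trans (sum_congr rfl fun y _ => ?_) h1
      rw [mul_comm]
      rfl
    have hlast : ∑ y : Col m N, x y * ν μ X m y.1 y.2 = 0 := by
      have h1 := congrFun hx none
      rw [Matrix.mulVec, dotProduct] at h1
      refine Eq.trans (sum_congr rfl fun y _ => ?_) h1
      rw [mul_comm]
      rfl
    -- the numerator at `1`
    have h1 : ev (Psi p a c N) 1 = 0 := by
      rw [hPsi 1 one_ne_zero (by simp), one_pow, one_mul, ← hlast]
      refine sum_congr rfl fun y _ => ?_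
      congr 1
      have h2 : w μ X m N y.1 1 = 1 := by
        rw [w]
        split_ifs with h
        · rw [one_zpow]
        · have h3 : (y.1 : ℕ) ∈ Icc 1 N := y.1.2
          rw [mem_Icc] at h3
          have h4 := hGsum (insert N (Icc 1 ((y.1 : ℕ) - 1))) (by
            intro i hi
            simp only [mem_insert, mem_Icc] at hi ⊢
            omega) 1 one_ne_zero (by simp)
          have h5 : N ∉ Icc 1 ((y.1 : ℕ) - 1) := by
            simp only [mem_Icc]
            omega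
          have h6 : G μ (fun ω => X N ω + ∑ i ∈ Icc 1 ((y.1 : ℕ) - 1), X i ω) 1 = 1 := by
            have h7 : (fun ω => X N ω + ∑ i ∈ Icc 1 ((y.1 : ℕ) - 1), X i ω) =
                fun ω => ∑ i ∈ insert N (Icc 1 ((y.1 : ℕ) - 1)), X i ω := by
              funext ω
              rw [sum_insert h5]
            rw [h7, h4]
            refine prod_eq_one fun i _ => ?_
            simp only [one_zpow]
            rw [integral_const, probReal_univ, one_smul]
          rw [h6, one_zpow, one_mul]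
      rw [φ, ν, h2, one_mul]
      refine sum_congr rfl fun r _ => ?_
      rw [one_pow, one_mul]
    -- the zeros on the circle
    have h2 : ∀ β : ℂ, ‖β‖ = 1 → β ≠ 1 → ev (∏ t ∈ range N, gf (p t) - PowerSeries.X ^
        (∑ t ∈ range N, a t)) β = 0 → ev (Psi p a c N) β = 0 := by
      intro β hβ hβ1 hβQ
      rw [← hgq, ← hAA, ← hQ] at hβQ
      have hβ0 : β ≠ 0 := by
        rintro rfl
        rw [norm_zero] at hβ
        exact zero_ne_one hβ
      have hz1 : β ∈ zeros μ X N := ⟨hβ.le, hβ0, hβ1, by rw [hg β hβ0 hβ.le, hβQ, mul_zero]⟩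
      have h3 := hrow β hz1 0 (by rw [(hbd1 β hz1 hβ).1]; exact one_pos)
      simp only [iteratedDerivWithin_zero] at h3
      rw [hPsi β hβ0 hβ.le, h3, mul_zero]
    -- the zeros in the open disc
    have h3 : ∀ α : ℂ, α ≠ 0 → ‖α‖ < 1 → analyticOrderAt (ev (∏ t ∈ range N, gf (p t) -
        PowerSeries.X ^ (∑ t ∈ range N, a t))) α ≤ analyticOrderAt (ev (Psi p a c N)) α := by
      intro α hα0 hα
      rw [← hgq, ← hAA, ← hQ]
      have hQan := ev_analytic hQ1.conv hα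
      by_cases hQα : ev Q α = 0
      · have hα1 : α ≠ 1 := by
          rintro rfl
          rw [norm_one] at hα
          exact lt_irrefl _ hα
        have hz1 : α ∈ zeros μ X N := ⟨hα.le, hα0, hα1, by rw [hg α hα0 hα.le, hQα, mul_zero]⟩
        obtain ⟨h4, -, -⟩ := hint1 α hz1 hα
        rw [← (hgan α hα0 hα).2, ← h4]
        -- analyticity of the entries
        have hφan : ∀ y : Col m N, AnalyticAt ℂ (φ μ X m N y.1 y.2) α := by
          intro y
          obtain ⟨t, ht, hty⟩ : ∃ t < N, z t = y.1 := by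
            have h5 : (y.1 : ℕ) ∈ Icc 1 N := y.1.2
            rw [mem_Icc] at h5
            by_cases h6 : (y.1 : ℕ) = N
            · exact ⟨0, by omega, by rw [h6]; exact zz_zero N⟩
            · exact ⟨y.1, by omega, zz_mid (by omega) (by omega)⟩
          have h5 : φ μ X m N y.1 y.2 =ᶠ[𝓝 α] fun s => (s ^ (∑ i ∈ range (t + 1), a i))⁻¹ *
              ev (∏ i ∈ range t, gf (p i)) s * ∑ r ∈ range (a t - y.2), s ^ (r + (y.2 : ℕ)) *
              ((∑ i ∈ range (r + 1), p t i : ℝ) : ℂ) := by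
            filter_upwards [hball α hα0 hα] with s hs
            have h6 := hφ t ht y.2 s hs.1 hs.2
            rw [hty] at h6
            rw [h6, (ev_prod hl t hs.2).2]
          refine AnalyticAt.congr ?_ h5.symm
          refine ((hinva _ α hα0).1.mul (ev_analytic (ev_prod hl t hα.le).1.conv hα)).mul ?_
          refine Finset.analyticAt_fun_sum _ fun r _ => ?_
          fun_prop
        set Φ : ℂ → ℂ := fun s => ∑ y : Col m N, x y * φ μ X m N y.1 y.2 s with hΦ
        have hΦan : AnalyticAt ℂ Φ α :=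
          Finset.analyticAt_fun_sum _ fun y _ => analyticAt_const.mul (hφan y)
        have h5 : (mult (g μ X N) α : ℕ∞) ≤ analyticOrderAt Φ α := by
          rw [natCast_le_analyticOrderAt_iff_iteratedDeriv_eq_zero hΦan]
          intro t ht
          rw [← idw_eq hα hΦan]
          refine (iteratedDerivWithin_fun_sum (I := Finset.univ)
            (f := fun (y : Col m N) s => x y * φ μ X m N y.1 y.2 s)
            (mem_closedBall_zero_iff.2 hα.le) uniq
            fun y _ => (analyticAt_const.mul (hφan y)).contDiffAt.contDiffWithinAt).trans ?_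
          refine Eq.trans (sum_congr rfl fun y _ => ?_) (hrow α hz1 t ht)
          exact iteratedDerivWithin_const_mul_field (x y) (φ μ X m N y.1 y.2)
        refine h5.trans (le_of_eq ?_)
        have h6 : ev (Psi p a c N) =ᶠ[𝓝 α] (fun s => s ^ AA) * Φ := by
          filter_upwards [hball α hα0 hα] with s hs
          exact hPsi s hs.1 hs.2
        have h7 : AnalyticAt ℂ (fun s : ℂ => s ^ AA) α := analyticAt_id.pow AA
        have h8 : analyticOrderAt (fun s : ℂ => s ^ AA) α = 0 := by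
          rw [h7.analyticOrderAt_eq_zero]
          exact pow_ne_zero _ hα0
        rw [analyticOrderAt_congr h6, analyticOrderAt_mul h7 hΦan, h8, zero_add]
      · rw [hQan.analyticOrderAt_eq_zero.2 hQα]
        positivity
    have hfin := core hl hA0 hneg h1 h2 h3
    funext y
    obtain ⟨j, n⟩ := y
    obtain ⟨t, ht, hty⟩ : ∃ t < N, z t = j := by
      have h5 : (j : ℕ) ∈ Icc 1 N := j.2
      rw [mem_Icc] at h5
      by_cases h6 : (j : ℕ) = N
      · exact ⟨0, by omega, by rw [h6]; exact zz_zero N⟩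
      · exact ⟨j, by omega, zz_mid (by omega) (by omega)⟩
    have h4 := hfin t ht n (by simp only [ha, hty]; exact n.2)
    simp only [hc, hty] at h4
    rw [hxe, h4]
    rfl
  -- the number of rows
  have hzsub : ∀ α ∈ zeros μ X N, α ∈ L.roots.toFinset ∧ mult (g μ X N) α ≤ L.roots.count α := by
    intro α hα
    rw [Multiset.mem_toFinset, Polynomial.count_roots]
    rcases lt_or_eq_of_le hα.1 with h1 | h1
    · obtain ⟨h2, h3, h4⟩ := hint1 α hα h1
      refine ⟨?_, h4⟩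
      rw [← Multiset.one_le_count_iff_mem, Polynomial.count_roots]
      refine le_trans ?_ h4
      rw [Nat.one_le_iff_ne_zero]
      intro h5
      rw [h5, iteratedDerivWithin_zero] at h3
      exact h3 hα.2.2.2
    · obtain ⟨h2, h3, h4⟩ := hbd1 α hα h1
      rw [h2, Polynomial.mem_roots hL0]
      exact ⟨h4, (Polynomial.rootMultiplicity_pos hL0).2 h4⟩
  have hzfin : (zeros μ X N).Finite :=
    (L.roots.toFinset.finite_toSet).subset fun α hα => (hzsub α hα).1
  have : Fintype (zeros μ X N) := hzfin.fintype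
  have hcardR : Fintype.card (Row μ X N) ≤ AA := by
    rw [Fintype.card_option, Fintype.card_sigma]
    simp only [Fintype.card_fin]
    have h1 : ∑ α : zeros μ X N, mult (g μ X N) α = ∑ α ∈ (zeros μ X N).toFinset, mult (g μ X N) α :=
      (Finset.sum_subtype (zeros μ X N).toFinset (fun α => by simp) (fun α => mult (g μ X N) α)).symm
    have h2 : (1 : ℂ) ∈ L.roots.toFinset := by
      rw [Multiset.mem_toFinset, Polynomial.mem_roots hL0]
      exact hL1
    have h3 : (zeros μ X N).toFinset ⊆ L.roots.toFinset.erase 1 := by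
      intro α hα
      rw [Set.mem_toFinset] at hα
      exact mem_erase.2 ⟨hα.2.2.1, (hzsub α hα).1⟩
    have h4 : ∑ α ∈ (zeros μ X N).toFinset, mult (g μ X N) α ≤
        ∑ α ∈ L.roots.toFinset.erase 1, L.roots.count α := by
      refine (sum_le_sum fun α hα => (hzsub α (Set.mem_toFinset.1 hα)).2).trans ?_
      exact sum_le_sum_of_subset h3
    have h5 : ∑ α ∈ L.roots.toFinset, L.roots.count α = Multiset.card L.roots :=
      Multiset.toFinset_sum_count_eq _
    rw [← add_sum_erase _ _ h2] at h5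
    have h6 : 1 ≤ L.roots.count 1 := Multiset.one_le_count_iff_mem.2 (Multiset.mem_toFinset.1 h2)
    have h7 := L.card_roots'
    rw [h1]
    omega
  have hcardC : Fintype.card (Col m N) = AA := by
    rw [Fintype.card_sigma]
    simp only [Fintype.card_fin]
    rw [Finset.sum_coe_sort (Icc 1 N) (fun j : ℕ => (-m j).toNat), ← zz_sum_all hN]
  have hcard : Fintype.card (Col m N) ≤ Fintype.card (Row μ X N) := by
    have h1 : Function.Injective (Matrix.mulVecLin (A μ X m N)) := by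
      rw [injective_iff_map_eq_zero]
      intro x hx
      exact hker x hx
    have h2 := LinearMap.finrank_le_finrank_of_injective h1
    rwa [Module.finrank_fintype_fun_eq_card, Module.finrank_fintype_fun_eq_card] at h2
  refine ⟨fun α hα => ?_, hker, ?_, fun e hdet => ?_⟩
  · rcases lt_or_eq_of_le hα.1 with h1 | h1
    · obtain ⟨h2, h3, h4⟩ := hint1 α hα h1
      exact ⟨h3, fun _ => h2, fun h5 => absurd h5 h1.ne⟩
    · obtain ⟨h2, h3, h4⟩ := hbd1 α hα h1
      exact ⟨h3, fun h5 => absurd h1 h5.ne, fun _ => h2⟩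
  · exact ⟨Fintype.equivOfCardEq (le_antisymm hcard (hcardR.trans hcardC.ge))⟩
  · obtain ⟨v, hv0, hv⟩ := Matrix.exists_mulVec_eq_zero_iff.2 hdet
    apply hv0
    refine hker v ?_
    funext i
    have h1 := congrFun hv (e.symm i)
    rw [Pi.zero_apply] at h1 ⊢
    rw [← h1]
    simp [Matrix.mulVec, dotProduct]

end

end Pool.Agent.Results.MP_432bca_pr.NonSingular
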